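import Pool.Agent.Y882.GP.Defs

/-! Project GP, job LSI: the additive large sieve for sets of integers in a symmetric interval. -/

set_option autoImplicit false

namespace Pool.Agent.Y914.GP

open Finset
open H343 (ex)

lemma shift {β : Type} [AddCommMonoid β] (H : ℕ) (S : Finset ℤ) (hS : S ⊆ Icc (-(H : ℤ)) H)
    (g : ℤ → β) :
    ∑ n ∈ Icc 1 (2 * H + 1), (if ((n : ℕ) : ℤ) - H - 1 ∈ S then g ((n : ℤ) - H - 1) else 0) =
      ∑ k ∈ S, g k := by
  rw [← sum_filter]
  apply sum_nbij' (i := fun n : ℕ => (n : ℤ) - H - 1) (j := fun k : ℤ => (k + H + 1).toNat)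
  · intro n hn
    exact (mem_filter.1 hn).2
  · intro k hk
    have h1 := mem_Icc.1 (hS hk)
    refine mem_filter.2 ⟨mem_Icc.2 ⟨by omega, by omega⟩, ?_⟩
    have h2 : (((k + H + 1).toNat : ℕ) : ℤ) - H - 1 = k := by omega
    rw [h2]
    exact hk
  · intro n hn
    have h1 := mem_Icc.1 (mem_filter.1 hn).1
    show ((n : ℤ) - H - 1 + H + 1).toNat = n
    omega
  · intro k hk
    have h1 := mem_Icc.1 (hS hk)
    show (((k + H + 1).toNat : ℕ) : ℤ) - H - 1 = k
    omega
  · intro n _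
    rfl

theorem lsi : Pool.Agent.Y882.GP.St_LSI := by
  intro H D S hS w
  have h1 := Pool.Agent.Helper112.additive_large_sieve (2 * H + 1) D
    (fun n => if (n : ℤ) - H - 1 ∈ S then (w ((n : ℤ) - H - 1) : ℂ) else 0)
  have h2 : ∑ n ∈ Icc 1 (2 * H + 1),
      ‖(if (n : ℤ) - H - 1 ∈ S then (w ((n : ℤ) - H - 1) : ℂ) else 0)‖ ^ 2 = ∑ k ∈ S, w k ^ 2 := by
    rw [← shift H S hS (fun k => w k ^ 2)]
    apply sum_congr rfl
    intro n _
    split_ifs
    · rw [Complex.norm_real, Real.norm_eq_abs, sq_abs]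
    · simp
  rw [h2] at h1
  refine le_trans (le_of_eq ?_) (h1.trans (le_of_eq ?_))
  · apply sum_congr rfl
    intro f _
    apply sum_congr rfl
    intro b _
    congr 1
    rw [← shift H S hS (fun k => (w k : ℂ) * ex ((b : ℝ) * k / f))]
    have h3 : ‖∑ n ∈ Icc 1 (2 * H + 1),
        (if (n : ℤ) - H - 1 ∈ S then (w ((n : ℤ) - H - 1) : ℂ) else 0) *
          Pool.Agent.Helper112.ee (n * b / f)‖ =
        ‖ex (-((b : ℝ) * (H + 1) / f)) * ∑ n ∈ Icc 1 (2 * H + 1),
        (if (n : ℤ) - H - 1 ∈ S then (w ((n : ℤ) - H - 1) : ℂ) else 0) *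
          Pool.Agent.Helper112.ee (n * b / f)‖ := by
      rw [norm_mul, Pool.Agent.Y882.PX.norm_ex, one_mul]
    rw [h3, mul_sum]
    congr 1
    apply sum_congr rfl
    intro n _
    split_ifs
    · rw [← H343.PVaux.ex_eq_ee, mul_left_comm, ← H343.Gauss.ex_add]
      congr 2
      push_cast
      ring
    · simp
  · push_cast
    ring

end Pool.Agent.Y914.GP
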